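import Mathlib
import Pool.Agent.H890.Ftop

/-!
MP_5ff3c6_ag, Q1: adjoint divisors. Q1 for minimal varieties implies (is equivalent to) abundance for
the nef divisors `K_X + (d / N) D`, `0 ≤ d ≤ N - 2`, on terminal varieties `X`, `D` being a reduced
divisor which is linearly equivalent to `N` times a Cartier divisor such that `(X, D)` is canonical.
-/

set_option autoImplicit false

namespace Pool.Agent.Results.MP_5ff3c6_ag.FermatCoverings

open FF Pool.Agent.Y172 Pool.Agent.R887 Pool.Agent.H890

/-- (1) Let `X` be a normal projective variety over `ℂ` with terminal singularities, of dimension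
`n ≥ 1`, with function field `K` (`y` is its generic point, in homogeneous coordinates). Let `D` be a
reduced divisor on `X` such that the pair `(X, D)` is canonical and `D` is linearly equivalent to
`N Λ`, `Λ` being a Cartier divisor, `N = r + 2 ≥ 3`, the divisor of the function `s` being `D - N Λ`.
Let `0 ≤ d ≤ N - 2`. Then there is a normal projective variety `V` of dimension `n + N - 2`, with
generic point `v` and function field `M`, with the following properties.

* `V` is terminal.
* `M` is the function field of the Fermat hypersurface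
  `z_0 ^ N + s (z_1 ^ N + … + z_d ^ N) + z_{d+1} ^ N + … + z_{N-1} ^ N = 0` in `P ^ (N - 1)` over `K`.
* `K_V` is nef if `K_X + (d / N) D` is nef, `K_V` is semiample if and only if `K_X + (d / N) D` is
  semiample, both divisors have the same Kodaira dimension, and the numerical dimension of `K_V` is
  at least the numerical dimension of `K_X + (d / N) D` (`Lifts`).

(2) Hence Q1 for minimal varieties (of all dimensions `≥ 1`) is equivalent to the following: if
`X, D, Λ, N, d` are as in (1) and `K_X + (d / N) D` (which is `ℚ`-linearly equivalent to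
`K_X + d Λ`) is nef, then it is semiample. -/
theorem result :
    (∀ (K : Type) [Field K] [Algebra ℂ K] (n r d N : ℕ) (y : Fin (N + 1) → K)
      (D Λ : Place ℂ K → ℤ) (s : K), Algebra.trdeg ℂ K = n → 1 ≤ n → 1 ≤ r → d ≤ r →
      NormalModel y → Terminal y n → Divides y n (r + 2) D Λ s → CanonicalPair y n D →
      ∃ (M : Type) (_ : Field M) (_ : Algebra ℂ M) (_ : Algebra K M) (_ : IsScalarTower ℂ K M)
        (z : Fin (r + 2) → M) (N' : ℕ) (v : Fin (N' + 1) → M), FermatField K s r d z ∧
        Lifts v (n + r) y n (fun P => (d : ℚ) / (r + 2 : ℕ) * D P) ∧ Terminal v (n + r)) ∧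
    ((∀ (K : Type) [Field K] [Algebra ℂ K] (n N : ℕ) (y : Fin (N + 1) → K),
        Algebra.trdeg ℂ K = n → 1 ≤ n → NormalModel y → Terminal y n → CanonicalNef y n →
        LogSemiample y n 0) ↔
      ∀ (K : Type) [Field K] [Algebra ℂ K] (n r d N : ℕ) (y : Fin (N + 1) → K)
        (D Λ : Place ℂ K → ℤ) (s : K), Algebra.trdeg ℂ K = n → 1 ≤ n → 1 ≤ r → d ≤ r →
        NormalModel y → Terminal y n → Divides y n (r + 2) D Λ s → CanonicalPair y n D →
        LogNef y n (fun P => (d : ℚ) / (r + 2 : ℕ) * D P) →
        LogSemiample y n (fun P => (d : ℚ) / (r + 2 : ℕ) * D P)) := by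
  refine ⟨fun K _ _ n r d N y D Λ s hn hn1 hr hd hy hter hD hcan =>
    fermat_terminal K hr hd hn1 hn hy hD hter hcan, ⟨fun h => ?_, fun h => ?_⟩⟩
  · intro K _ _ n r d N y D Λ s hn hn1 hr hd hy hter hD hcan hnef
    obtain ⟨M, _, _, _, _, z, N', v, h1, h2, h3⟩ :=
      fermat_terminal K hr hd hn1 hn hy hD hter hcan
    exact h2.semiample.1 (h M _ N' v h2.trdeg (by omega) h2.normal h3 (h2.nef hnef))
  · intro K _ _ n N y hn hn1 hy hter hnef
    have h1 := h K n 1 0 N y 0 0 1 hn hn1 le_rfl (Nat.zero_le _) hy hter (divides_zero y n 3)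
      (canonicalPair_zero hter)
    have h2 : (fun P : Place ℂ K => ((0 : ℕ) : ℚ) / (1 + 2 : ℕ) *
        (((0 : Place ℂ K → ℤ) P : ℤ) : ℚ)) = 0 := by
      funext P
      simp
    rw [h2] at h1
    exact h1 (logNef_zero.2 hnef)

end Pool.Agent.Results.MP_5ff3c6_ag.FermatCoverings
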