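import Pool.Agent.H908.SD5

/-!
# Abundance for quotients of products by groups which permute the factors, with reflections

Let `V = W 1 × ... × W r` be a product of projective varieties over the complex numbers and `G` a
finite group which acts on `V` and permutes the factors. If the age of all elements of `G` is at
least one, then `κ = ν` for the `W i` implies `κ = ν` for the quotient. This fails if `G` contains
reflections: the reflections of `V` which move a factor are the *transpositions* of two curves `W i`,
`W j`, and for example the symmetric product of `n` curves of genus `g` is uniruled for `n > g` and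
birational to the Jacobian for `n = g`.

The theorem of this file is about groups with transpositions. The *block* of a curve `W i` consists
of `W i` and of the curves `W j` for which `G` contains the transposition of `W i` and `W j`. The
group `G` is *admissible* if two different elements of `G` are not transpositions of the same two
curves and all the other elements `g ≠ 1` of `G` which fix pointwise a prime divisor over `V` have
age at least one or move a factor of dimension at least two. All groups `G` of permutations of the
factors (elements which map a factor to itself are trivial on it) are admissible.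

The theorem: the abundance conjecture `κ = ν` holds for the resolution `X` of `V / G` if it holds
for the factors of dimension at least two, provided that no block of curves of genus `g ≥ 2` has
exactly `g` elements. Moreover `ν(X) = -∞` if `ν(W i) = -∞` for a factor of dimension at least two or
if the block of some curve has more elements than the genus of the curve, and
`κ(X) = ν(X) = ∑ κ(W i)` in all the other cases: each curve of genus at least two contributes one,
as if there were no reflections.

Proof. Upper bounds for `ν` come from the product, and the quotient is uniruled if a block is too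
large. For the lower bound of `κ` one has to construct many algebraically independent ratios of
pluricanonical forms of the quotient, which vanish to order `m` on the branch divisors. For a block
of `b < g` curves isomorphic to `C` let `f_1 dx, ..., f_{b+1} dx` be independent regular differentials
of `C`. The determinants `d_l = det (f_j (x_i))_{j ≠ l}` vanish on the diagonals, and the ratios
`v_l = d_l / d_{b+1}` are the solution of the linear equations `∑ v_l f_l (x_i) = ± f_{b+1} (x_i)`.
If the functions `v_1, ..., v_b` were algebraically dependent then some `x_i` would be transcendental
over the field generated by them; but then the linear relation between the functions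
`f_1 (x_i), ..., f_{b+1} (x_i)` over this field contradicts the linear disjointness of this field and
`ℂ (C)`. Hence `v_1, ..., v_b` are algebraically independent, for each block, and also together with
the functions of the other factors.
-/

set_option autoImplicit false
set_option linter.overlappingInstances false

open FF IntermediateField
open Pool.Agent.W619.PQ (IsDivisorial Inert)
open Pool.Agent.W619.TW (NumNeg NumLe)
open Pool.Agent.W619.Y (KodTr)
open Pool.Agent.K1H17.IS (Abundance)
open Pool.Agent.K1H6.PQ (IsPermuted age)
open Pool.Agent.Helper11K9.OD (regularForms)

namespace Pool.Agent.Results.MP_5ff3c6_ag.ReflectionQuotientsAbundance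

section

variable {L : Type} [Field L] [Algebra ℂ L] {r : ℕ}

/-- `g` is the transposition of the curves `i ≠ j`: the factors `i` and `j` are curves, `g`
exchanges them, and `g` is trivial on all the other factors. (`M l` is the field of functions of the
factor `l`, and `a l` is its dimension.) -/
def IsTransposition (M : Fin r → IntermediateField ℂ L) (a : Fin r → ℕ) (g : L ≃ₐ[ℂ] L)
    (i j : Fin r) : Prop :=
  i ≠ j ∧ a i = 1 ∧ a j = 1 ∧ (∀ z ∈ M i, g z ∈ M j) ∧ (∀ z ∈ M j, g z ∈ M i) ∧
    ∀ l, l ≠ i → l ≠ j → ∀ z ∈ M l, g z = z

/-- The block of the factor `i`: it consists of `i` and of the curves `j` such that `G` contains a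
transposition of `i` and `j`. -/
def block (M : Fin r → IntermediateField ℂ L) (a : Fin r → ℕ) (G : Subgroup (L ≃ₐ[ℂ] L))
    (i : Fin r) : Set (Fin r) :=
  {j | j = i ∨ ∃ g ∈ G, IsTransposition M a g i j}

/-- The genus of the curve with the field of functions `F`: the dimension of the space of regular
differential forms. -/
noncomputable def genus (F : Type) [Field F] [Algebra ℂ F] : ℕ :=
  Module.finrank ℂ (regularForms F)

/-- The definition of `regularForms`. -/
theorem mem_regularForms {F : Type} [Field F] [Algebra ℂ F] {ω : Derivation ℂ F F →ₗ[F] F} :
    ω ∈ regularForms F ↔ ∀ (P : Place ℂ F) (δ : Derivation ℂ F F),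
      (∀ f, P.Reg f → P.Reg (δ f)) → P.Reg (ω δ) := Iff.rfl

/-- The definition of `Abundance`: `ν = -∞`, or `κ ≥ h` and `ν ≤ h` for some `h`. -/
theorem abundance_iff {K : Type} [Field K] [Algebra ℂ K] {n : ℕ} :
    Abundance ℂ K n ↔ (NumNeg ℂ K n (fun _ => False) ∨
      ∃ h, KodTr ℂ K n h ∧ NumLe ℂ K n (fun _ => False) h) := Iff.rfl

/-- `G` consists of permutations of the factors: an element which maps a factor to itself is trivial
on it. -/
def IsPermutationGroup (M : Fin r → IntermediateField ℂ L) (G : Subgroup (L ≃ₐ[ℂ] L))
    (σ : G →* Equiv.Perm (Fin r)) : Prop :=
  ∀ (g : G) i, σ g i = i → ∀ z ∈ M i, (g : L ≃ₐ[ℂ] L) z = z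

/-- The condition on the group: for `i ≠ j` it contains at most one transposition of `i` and `j`, and
every other element `g ≠ 1` of the group, if it fixes pointwise a prime divisor `w` over the product
(`Inert w g`), moves a factor of dimension at least two or has age at least one. Here
`age M a (σ g) (fun _ _ => 0) g` is the sum over the cycles of `σ g`, say of length `l` on factors of
dimension `d`, of `d (l - 1) / 2`, plus `1 / t` if `g ^ l` acts on the factors of the cycle with
order `t ≥ 2`. -/
structure IsAdmissible (M : Fin r → IntermediateField ℂ L) (a : Fin r → ℕ)
    (G : Subgroup (L ≃ₐ[ℂ] L)) (σ : G →* Equiv.Perm (Fin r)) : Prop where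
  unique : ∀ g ∈ G, ∀ g' ∈ G, ∀ i j, IsTransposition M a g i j → IsTransposition M a g' i j → g = g'
  age : ∀ g : G, g ≠ 1 → (∃ w : Place ℂ L, IsDivisorial w (∑ i, a i) ∧
      Inert w (g : L ≃ₐ[ℂ] L)) →
    (∃ i j, IsTransposition M a (g : L ≃ₐ[ℂ] L) i j) ∨ (∃ i, σ g i ≠ i ∧ 2 ≤ a i) ∨
    1 ≤ age M a (σ g) (fun _ _ => 0) (g : L ≃ₐ[ℂ] L)

open Classical in
/-- The Kodaira dimension of the factor `i`, if it is not negative: it is `0` for a point, `1` or `0`
for a curve, according to whether the genus is at least two or not, and the given number `A i` for a
factor of dimension at least two. -/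
noncomputable def kodaira (M : Fin r → IntermediateField ℂ L) (a A : Fin r → ℕ) (i : Fin r) : ℕ :=
  if a i = 0 then 0 else if a i = 1 then (if 2 ≤ genus (M i) then 1 else 0) else A i

end

/-- **Abundance for quotients of products with reflections.** Let `M i` (`i < r`) be the fields of
functions of projective varieties `W i` of dimensions `a i`, and let `L` be the field of functions of
their product. Let the finite group `G` act on the product and permute the factors, as `σ g`
(`IsPermuted`), and let `X` be a projective manifold birational to the quotient of the product by
`G`; its field of functions is `fixedField G`. Assume that `G` consists of permutations of the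
factors, or, more generally, that `G` is admissible.

1. If `ν(W i) = -∞` for some `W i` of dimension at least two, or the block of some curve `W i` has
   more elements than the genus of `W i`, then `ν(X) = -∞`.
2. If `κ(W i) = ν(W i) = A i` for the `W i` of dimension at least two, the blocks of the curves `W i`
   have at most as many elements as the genus of `W i`, and less if the genus is at least two, then
   `κ(X) = ν(X)` is the sum of the Kodaira dimensions of the `W i`.
3. If the `W i` of dimension at least two satisfy the abundance conjecture `κ = ν` and the number of
   elements of the block of a curve `W i` of genus at least two is never equal to the genus, then `X`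
   satisfies the abundance conjecture. -/
theorem result {L : Type} [Field L] [Algebra ℂ L] {r : ℕ} (M : Fin r → IntermediateField ℂ L)
    (a : Fin r → ℕ) (G : Subgroup (L ≃ₐ[ℂ] L)) [Finite G] (σ : G →* Equiv.Perm (Fin r))
    (h : IsPermuted M a G σ) (hG : IsPermutationGroup M G σ ∨ IsAdmissible M a G σ) :
    (((∃ i, 2 ≤ a i ∧ NumNeg ℂ (M i) (a i) (fun _ => False)) ∨
        ∃ i, a i = 1 ∧ genus (M i) < (block M a G i).ncard) →
      NumNeg ℂ (fixedField G) (∑ i, a i) (fun _ => False)) ∧
    (∀ A : Fin r → ℕ,
      (∀ i, 2 ≤ a i → KodTr ℂ (M i) (a i) (A i) ∧ NumLe ℂ (M i) (a i) (fun _ => False) (A i)) →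
      (∀ i, a i = 1 → (block M a G i).ncard ≤ genus (M i)) →
      (∀ i, a i = 1 → 2 ≤ genus (M i) → (block M a G i).ncard ≠ genus (M i)) →
      KodTr ℂ (fixedField G) (∑ i, a i) (∑ i, kodaira M a A i) ∧
      NumLe ℂ (fixedField G) (∑ i, a i) (fun _ => False) (∑ i, kodaira M a A i)) ∧
    ((∀ i, 2 ≤ a i → Abundance ℂ (M i) (a i)) →
      (∀ i, a i = 1 → 2 ≤ genus (M i) → (block M a G i).ncard ≠ genus (M i)) →
      Abundance ℂ (fixedField G) (∑ i, a i)) := by
  have hG' : Pool.Agent.H908.SB.Admissible M a G σ := by
    rcases hG with hp | hG
    · exact Pool.Agent.H908.SB.pure_admissible h hp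
    · exact ⟨hG.unique, hG.age⟩
  exact ⟨Pool.Agent.H908.SB.num_neg h hG', fun A h1 h2 h3 =>
    Pool.Agent.H908.SB.values h hG' A h1 h2 h3, Pool.Agent.H908.SB.abundance h hG'⟩

end Pool.Agent.Results.MP_5ff3c6_ag.ReflectionQuotientsAbundance
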