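import Pool.Agent.H891.OM.Semi

/-!
# Abundance for varieties with maps to lower dimensional pairs: stable base loci

MP_5ff3c6_ag, Q1. **Abundance** (part (3) of the theorem): let `X` be a smooth projective variety of
dimension `n` such that for each point `x` of `X` (the maps can depend on `x`) there are rational maps
`φ j : X ⇢ Y j`, `j < r`, defined at `x`, and weights `p j > 0` with `n = ∑ p j dim (Y j)`, such that

* for all linear subspaces `U` of the tangent space of `X` at `x`: `dim U ≤ ∑ p j dim (dφ j (U))`
  (the condition for the Brascamp-Lieb inequality);
* `Y j` is smooth (or has canonical singularities), and `φ j (x)` is not in the stable base locus of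
  `K_{Y j}`, for example `K_{Y j}` is semiample.

Then `K_X` is semiample: `m K_X` is base point free for some `m ≥ 1`. So abundance for such `X` follows
from abundance for the `Y j`, which have usually smaller dimension (it is known if `Y j` is a minimal
variety with `dim (Y j) ≤ 3`). For example `X` can be a smooth threefold in a product of three minimal
surfaces `Y j` of Kodaira dimension `≥ 0`, such that the projections `X → Y j` are smooth and the
directions of their fibres are linearly independent at all points (`p j = 1 / 2`).

More generally let `V` be a projective variety of dimension `n` with function field `K`, `Δ` a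
divisor on `V` (for Q1: `V` minimal, `Δ = 0`). We prove that a point `x` of `V` is not in the stable
base locus of `K_V + Δ` (i.e. some `m (K_V + Δ)`, `m ≥ 1`, has a section which generates it at `x`), if
there are maps `φ j : V ⇢ Y j` to pairs `(Y j, Δ j)`, such that `φ j (x)` is not in the stable base locus of
`K + Δ j`, and the differentials of the `φ j` at the point `x` satisfy the condition above. We allow
multivalued maps, i.e. rational maps of a Galois covering `V'` of `V`, and quotient singularities.

The assumptions:

(A) `L` is the function field of a Galois covering `V' → V` with the group `G`, `g = |G|`;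
`Y j ⊆ L` are the function fields of the `Y j`, `y j = dim (Y j)`, i.e. there are rational maps
`φ j : V' ⇢ Y j`, `j < r`. The branches of `φ j` are its conjugates `φ q`, `q = (j, σ)`, `σ` in `G`.

(B) `(V', Δ') ⇢ (Y j, Δ j)` are maps of orbifolds (`OrbMap`), where `K_V' + Δ' = π^* (K_V + Δ)`: for all
divisors `w` over `V'` (over a divisor `v` over `V`, with the ramification index `e`) the log discrepancy
`e (1 - δ v)` of `w` is in `[0, 1]`, and at most the log discrepancy `i (1 - δ u)` of the valuation
`i u` which `w` induces on `ℂ(Y j)`, if it is not trivial. If `V' = V`, `Δ = 0` and all `Δ j = 0`, this is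
satisfied for all rational maps (`e = 1`, `1 ≤ i`). More generally, let `V` be minimal (terminal) or
with canonical singularities, `V' → V` étale in codimension one, and let the `Y j` have canonical
singularities. Then sections of `m K_V` do not change if one puts `δ v = 1` for the exceptional divisors
`v` of `V` and `δ v = 0` for the prime divisors of `V`, and with this choice and `δ u = 0` for all `u` the
condition (B) is satisfied for all rational maps `φ j`; this is (0') in the theorem. For orbifolds `(V, Δ)`, `(Y j, Δ j)` with standard
coefficients `1 - 1 / m` it is the condition of Campana.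

(C) The point. `x'` is a smooth point of `V'` over `x`, and `K_V + Δ` pulls back to `K_V'` near `x'`
(if `Δ = 0` near `x` and `x` is smooth: `V' → V` is étale at `x'`; also: `x` a quotient singularity
and `V' → V` étale in codimension one near `x'`; or `Δ = ∑ (1 - 1 / m) Δ m` near `x` and `V'` is an
orbifold chart). In the theorem (`IsPoint`) `R` is a ring of functions which are regular at `x'`,
stable under `G`, with the evaluation `ε : R → ℂ` at `x'`; the `z i` in `R` are coordinates, with the dual
vector fields `H i`, which map `R` into itself. Such `R`, `z`, `H` exist for all smooth points of `V'`: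
one takes functions `z i` which are local coordinates at all points of the orbit `G x'`, and the ring `R`
of a suitable `G`-stable affine neighbourhood of it.

(D) The maps `φ q` are defined at `x'`. In the theorem (`IsChart`) `s q` are coordinates of `Y j`, or
of an orbifold chart of `(Y j, Δ j)`, at `φ q (x')`; they are regular functions at `x'`, and
`d (σ t l) = ∑ P l l' d (s l')` for the coordinates `t` of `Y j`. If `Y j` is smooth at the points
`φ q (x')` and `Δ j = 0` there, one takes `s q = σ t`, `P q = 1` with functions `t` which are local
coordinates at these points.

(E) **The Brascamp-Lieb condition at the point** (`BLPoint`). There are weights `p j = c j / d'`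
with `n = ∑ p j y j` and, for all linear subspaces `U` of the tangent space `T` of `V'` at `x'`,

  `dim U ≤ ∑ p j dim (dφ j (U))`,

where `dim (dφ j (U))` is the average over the branches `q = (j, σ)` of
`dim (dφ q (U)) = dim U - dim (U ∩ T q)`, and `T q = TanPt q` is the tangent space of the fibre of `φ q`.
The point, the maps, and the weights are fixed in the theorem: they can be different for different `x`.
For `U = T` the condition says that the `φ q` with `p j > 0` are smooth at `x'`.

**Results.**

(0) **A class with (E).** The charts `s q` consist of the coordinates `z i`, `i ∈ S q`, for subsets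
`S q` of `{1, ..., n}` with `y j` elements, such that for all `i` the sum of the `c j` over the
`q = (j, σ)` with `i ∈ S q` is `d' g` (fractional coverings; Loomis-Whitney, Finner, Shearer).
Geometrically: `V' → X 1 × ... × X m` is étale at `x'`, and the `φ q` are étale over partial products, near
`x'`. For example threefolds with maps to three surfaces `Y j` over `X 2 × X 3`, `X 1 × X 3`,
`X 1 × X 2`, `p j = 1 / 2`, or `n`-folds with maps `V → Y j` whose fibres are curves with independent
directions at `x`, `1 ≤ j ≤ n`, `p j = 1 / (n - 1)` (here the coordinates are only needed to first
order, so one uses (E) directly).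

(1) **Generation at `x`.** There are `D ≥ 1` and a function `u` with `u (x') ≠ 0` such that for all
boundaries with (B), all `T`, and all sections `η j` of `T D c j (K + Δ j)`, there is a section `ω` of
`T D d' g ^ 2 (K_V + Δ)` whose pull-back to `V'` has the value `u ^ T ∏ (φ q^* η j) ^ g` at the frame `H`
of `V'`; here `φ q^* η j` is the value of `η j` in the chart `s q`, and the product is over all
branches `q`. So `K_V + Δ - ∑ p j φ j^* (K + Δ j)` is generated by a global section at `x`, and near `x`
the divisor of `ω` is the pull-back of the divisors of the `η j`.

(2) **Stable base loci.** If the points `φ q (x')` are not in the stable base locus of `K + Δ j` for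
all `q = (j, σ)`, then `x` is not in the stable base locus of `K_V + Δ`.

(3) **Abundance.** Let `X` be a normal projective variety with function field `K`, given by the
homogeneous coordinates `x` of its generic point. Suppose that for each prime divisor `Q` over `X`
there is a point `x'` in the closure of the centre of `Q`, smooth on `X`, with maps as in (2) (`HasMaps`;
here `V' = V = X`, `Δ = 0`, `Δ j = 0`). Then `K_X` is semiample (`Semiample`): for some `m ≥ 1` there is for
each centre `Z` a section of `m K_X` which generates `m K_X` at the generic point of `Z`. (Each closed
point of `X` is such a centre; so the condition is on all closed points, and `X` is smooth.) In the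
theorem `R` is the ring of a principal affine open neighbourhood of `x'` (`IsPointOf`).

Also for minimal `V` with quotient singularities (2) at all points gives that `K_V` is semiample (this
case is not formalized).

Examples. (a) `V ⊆ ∏ Y j` or `V → ∏ Y j` unramified, with (E) at all points. For `V` in an abelian
variety or in a product of curves of genus `≥ 1` this is classical (the Gauss map). Here the
`Y j` can be Calabi-Yau varieties, varieties of general type, or pairs; e.g. smooth threefolds `V` in
`Y 1 × Y 2 × Y 3`, `Y j` minimal surfaces of Kodaira dimension `≥ 0`, for which the projections `V → Y j`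
are smooth and their fibres have independent directions at all points. (b) `V → Y 1 × Y 2` finite and
étale is the classical case of a product. (c) One multivalued map to `Y`, `dim Y = y`, `p = n / y`: the
condition is `dim U / n ≤ dim (dφ (U)) / y`. For a curve `Y` it says that for all subspaces `W` of the
cotangent space of `V'` at `x'` at most `g dim W / n` of the differentials of the `g` branches of `φ` are
in `W`, i.e. that they are a semistable configuration of `g` points in `P^(n - 1)`. (d) The weights and
the maps need not be the same at all points: at the points where one system does not satisfy (E) one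
can use other systems.

The inequality `K_V + Δ ≥ ∑ p j φ j^* (K + Δ j)`, i.e. (1) without control of the zeros of `u`, with a
condition at the generic point only, is `OrbifoldMaps` (MP_bc213e_ag); it gives nothing about base
loci. For the sections in (1) we need that for each point satisfying (E) the determinants (see below) are
not zero at all conjugates of the point simultaneously.

Proof. By (E) and the theorem on Brascamp-Lieb data over fields (the existence of constant matrices, see
`ReverseBrascampLieb`, MP_c2a5fc_ag), there are constant matrices `X` such that the linear map
`⊕ T^*_{φ q (x')} Y j ⊗ E_j → T^* ⊗ E`, `dim E_j = D c j`, `dim E = D d' g`, is an isomorphism at `x'`;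
`X` can be chosen such that this is so for all `σ` in `G`, which permute the summands. The norm from `L`
to `K` of the product of the determinant and the `η j` is the section `ω`; it is a section of
`T D d' g ^ 2 (K_V + Δ)` by the estimates for log canonical orbifold maps (`OrbifoldMaps`), and
its value at `x'` is computed in the charts `s q`. For (3), the section generates `m K_X` in a neighbourhood
`b ≠ 0` of the point; the ideals in the coordinate rings of the charts generated by such functions `b` are
finitely generated, and not contained in the ideal of any centre.

Conventions. `Place ℂ K`: discrete valuations of `K`, `ℂ`-trivial; `IsDivisorial`: given by a divisor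
over `V`; `LiesOn w v e`: `w` lies over `v` with the ramification index `e`. `PairSec k M n δ {1} m 0 ω`:
the rational `m`-canonical form `ω` (a function of the frame) is a section of `m (K + Δ)`, `Δ` the
divisor with the multiplicities `δ v` at the prime divisors over the variety with function field `M`.
`IsDualFrame t F`: coordinates `t` (a transcendence basis) and the dual vector fields `F`.
`NonzeroAt R ε a`: `a` is in `R` and `a (x') ≠ 0`. `pullVal H y₀ E m ω`: the value of the pull-back of
`ω` to `V'` on the frame `H`, computed with coordinates `y₀` of `V` and the dual frame `E`. `FreeAt`: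
`x` is not in the stable base locus of `K_V + Δ` (for some `m ≥ 1` there is a section `ω` of
`m (K_V + Δ)` with `NonzeroAt R ε (pullVal H y₀ E m ω)`). `FreeIm`: for some `m ≥ 1` there is a
section `η` of `m (K + Δ j)` whose values `det (P q) ^ m σ (η (F))` in the charts `s q` are not zero at
`x'`, for all `q = (j, σ)`; if no `φ q (x')` is in the stable base locus of `K + Δ j` this is
true for a general section `η`, `m` sufficiently divisible. `NormalModel x`, `IsPrimeDivisor x P`, `Through x P Q`,
`OrdGe`, `OrdEq`, `chart x j`, `Centred x j Q`, `Divisorial n Q` (library): normal projective varieties by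
homogeneous coordinates of the generic point, their prime divisors, prime divisors through the centre of
`Q`, order of forms along `P`, coordinate ring of the chart `x j ≠ 0`, centre of `Q` in this chart, prime
divisors over `X`.
-/

set_option autoImplicit false

open FF Pool.Agent.W602.GT Pool.Agent.W619.PQ Pool.Agent.W619.TW Pool.Agent.Y172 Pool.Agent.Y174
  Pool.Agent.H891.OM

namespace Pool.Agent.Results.MP_5ff3c6_ag.StableBaseLoci

/-- **Abundance, and stable base loci, for varieties with maps to other pairs.** Let `K` be the function
field of varieties of dimension `n`.

(3) Let `X` be a normal projective variety with function field `K` and generic point `x` (in homogeneous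
coordinates). If for each prime divisor `Q` over `X` there is a (smooth) point in the closure of the
centre of `Q` with maps to varieties `Y j` such that the Brascamp-Lieb condition at the point is
satisfied and the image of the point is not in the stable base locus of `K_{Y j}` (`HasMaps`; the
sections of `m K_{Y j}` are regular along all divisors over `Y j`, i.e. `Y j` is smooth), then
`K_X` is semiample (`Semiample`).

Let `V` be a projective variety with function field `K`, `L` the function field of a Galois covering
`V' → V` with the group `G`, `g = |G|`, let `Y j ⊆ L` be function fields of varieties of dimension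
`y j`, `x'` a point of `V'` (`IsPoint`), and `s q` charts of the `Y j` at the images of `x'` under all
the conjugates `q = (j, σ)` of the maps `V' ⇢ Y j` (`IsChart`). Let `c j / d'` be weights.

(0) If the chart `s q` consists of the coordinates `z i`, `i ∈ S q`, and for all `i` the sum of the
`c j` over the `q = (j, σ)` with `i ∈ S q` is `d' g` (`IsCoordChart`), then the conditions on the
weights in the following results are satisfied.

(0') If `V' → V` is unramified over all divisors which are not in `Z` (e.g. `V' → V` is étale in
codimension one and `Z` is the set of the exceptional divisors over `V`), then the maps are maps of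
orbifolds (`OrbMap`) for the multiplicities `δ v = 1` for `v` in `Z`, `δ v = 0` for the other `v`, and
`δ u = 0` for all divisors `u` over the `Y j`.

Assume that `∑ c j y j = n d'`, and that the Brascamp-Lieb condition is satisfied at the point
(`BLPoint`).

(1) There are a `D ≥ 1` and a function `u` with `u (x') ≠ 0` such that for all divisors `Δ`, `Δ j` for
which the maps are maps of orbifolds (`OrbMap`), all `T` and all sections `η j` of
`T D c j (K_{Y j} + Δ j)`, there is a section `ω` of `T D d' g ^ 2 (K_V + Δ)` whose pull-back to `V'` has
the value `u ^ T ∏ (φ q^* η j) ^ g` at the frame `H` (`GeneratedBy`), where `φ q^* η j` is the value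
`det (P q) ^ (T D c j) σ (η j (F j))` of `η j` in the chart `s q`.

(2) If the maps are maps of orbifolds, and the images of `x'` are not in the stable base loci of the
`K_{Y j} + Δ j` (`FreeIm`), then the image of `x'` is not in the stable base locus of `K_V + Δ`
(`FreeAt`). -/
theorem result {K : Type} [Field K] [Algebra ℂ K] [Algebra.EssFiniteType ℂ K] {n : ℕ}
    (hn : Algebra.trdeg ℂ K = n) :
    (∀ (N : ℕ) (x : Fin (N + 1) → K), NormalModel x →
      (∀ Q : Place ℂ K, Divisorial n Q → HasMaps x n Q) → Semiample x n) ∧
    ∀ (L : IntermediateField K (AlgebraicClosure K)) [FiniteDimensional K L] [IsGalois K L]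
    {r : ℕ} (Y : Fin r → IntermediateField ℂ L) [∀ j, Algebra.EssFiniteType ℂ (Y j)]
    (y : Fin r → ℕ) (_ : ∀ j, Algebra.trdeg ℂ (Y j) = y j) (R : Subalgebra ℂ L) (ε : R →ₐ[ℂ] ℂ)
    (z : Fin n → L) (H : Fin n → Derivation ℂ L L) (_ : IsPoint R z H)
    (t : ∀ j, Fin (y j) → Y j) (F : ∀ j, Fin (y j) → Derivation ℂ (Y j) (Y j))
    (_ : ∀ j, IsDualFrame (t j) (F j))
    (s : ∀ q : Fin r × (L ≃ₐ[K] L), Fin (y q.1) → L)
    (P : ∀ q : Fin r × (L ≃ₐ[K] L), Matrix (Fin (y q.1)) (Fin (y q.1)) L)
    (_ : IsChart R H t s P) (c : Fin r → ℕ) (d' : ℕ) (_ : 1 ≤ d'),
    (∀ S, IsCoordChart z s S c d' → ∑ j, c j * y j = n * d' ∧ BLPoint R ε H s c d') ∧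
    (∀ Z : Set (Place ℂ K), (∀ (w : Place ℂ L) (v : Place ℂ K) (e : ℕ), IsDivisorial w n →
      LiesOn w v e → v ∉ Z → e = 1) → OrbMap n L (Z.indicator 1) Y fun _ _ => 0) ∧
    (∑ j, c j * y j = n * d' → BLPoint R ε H s c d' →
      (∃ D : ℕ, 0 < D ∧ ∃ u : L, NonzeroAt R ε u ∧
        ∀ (δ : Place ℂ K → ℝ) (δY : ∀ j, Place ℂ (Y j) → ℝ), OrbMap n L δ Y δY →
          GeneratedBy H Y P F δ δY c d' D u) ∧
      ∀ (δ : Place ℂ K → ℝ) (δY : ∀ j, Place ℂ (Y j) → ℝ), OrbMap n L δ Y δY →
        (∀ j, FreeIm R ε (fun σ => P (j, σ)) (F j) (δY j)) → FreeAt R ε H δ) := by
  classical
  refine ⟨fun N x hx h => semi_of_maps inferInstance hx hn h, ?_⟩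
  intro L _ _ r Y _ y hy R ε z H hpt t F hF s P hch c d' hd'
  refine ⟨fun S hS => pt_shearer hpt hS.1 hS.2.1 fun i => ?_, fun Z hZ w v e hw hov => ?_,
    fun hcy hBL => ⟨?_, ?_⟩⟩
  · rw [Finset.sum_filter, ← hS.2.2 i]
  · by_cases hv : v ∈ Z
    · rw [Set.indicator_of_mem hv, Pi.one_apply, sub_self, mul_zero]
      refine ⟨le_refl _, zero_le_one, fun j u i _ => ?_⟩
      rw [sub_zero, mul_one]
      exact Nat.cast_nonneg i
    · rw [Set.indicator_of_notMem hv, hZ w v e hw hov hv, Nat.cast_one, sub_zero, mul_one]
      refine ⟨zero_le_one, le_refl _, fun j u i hui => ?_⟩
      rw [sub_zero, mul_one]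
      exact_mod_cast hui.1
  · obtain ⟨D, hD, u, hu, h⟩ := point_sec inferInstance hn hy hpt (fun j => (hF j).1) hch
      (fun j => (hF j).2) hd' hcy hBL
    refine ⟨D, hD, u, hu, fun δ δY horb T η hη => ?_⟩
    obtain ⟨ω, hω, hωE⟩ := h δ δY (orb_loc horb d') T η hη
    refine ⟨ω, hω, fun y₀ E hE => ?_⟩
    rw [hωE y₀ E hE.1 hE.2]
    unfold pullProd
    congr 2
  · intro δ δY horb hfree
    exact point_free inferInstance hn hy hpt (fun j => (hF j).1) hch (fun j => (hF j).2) hd' hcy
      hBL (orb_loc horb d') hfree

end Pool.Agent.Results.MP_5ff3c6_ag.StableBaseLoci
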