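import Pool.Agent.H897.IC

/-!
Abundance for pairs `(X, Δ)` with stable orbifold tangent sheaf.

Let `X` be a normal projective variety of dimension `n ≥ 2` with the function field `K`, `Δ` an
effective divisor, and `α` a movable class for which `T (X, Δ)` is `α`-stable and
`(K_X + Δ) · α ≤ 0`. Then there is a finite set `B` of prime divisors with the degree `0`, which is
the support of the divisor of each nonzero section of each multiple of `K_X + Δ`, and it is also the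
locus where any nonzero orbifold tensor is unstable. If there is a nonzero tensor of length `m` with
values in `a (K_X + Δ)`, then `d (K_X + Δ)` has a nonzero section, where `d` depends only on `n`,
`m` and `a`, and `K_X + Δ` is torsion if and only if this tensor is semistable at all prime
divisors.
-/

set_option autoImplicit false
set_option linter.overlappingInstances false

open MvPolynomial FF Pool.Agent.W602.GT Pool.Agent.Y172 Pool.Agent.NH31 Pool.Agent.H897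
open Pool.Agent.N133.TB Pool.Agent.Y174

namespace Pool.Agent.Results.MP_5ff3c6_ag.StableUnstableLocus

theorem result (n : ℕ) (hn2 : 2 ≤ n) :
    ∃ d : ℕ → ℤ → ℕ, (∀ m a, 1 ≤ d m a) ∧
      ∀ (K : Type) [Field K] [Algebra ℂ K] (N : ℕ) (y : Fin (N + 1) → K), NormalModel y →
        Algebra.trdeg ℂ K = n → ∀ (Δ : Place ℂ K → ℚ) (α : Place ℂ K → ℝ) (c : ℝ),
          Effective y Δ → MovableClass y α → LogDegree y n Δ α c → c ≤ 0 →
            StableTangent y n Δ α c →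
      ∃ B : Set (Place ℂ K), B.Finite ∧ (∀ P ∈ B, IsPrimeDivisor y P ∧ α P = 0) ∧
        (∀ (k : ℕ) (ω : (Fin n → Derivation ℂ K K) → K), 1 ≤ k → ω ≠ 0 →
          IsSection y n k (k • Δ) ω →
            (∀ η, IsSection y n k (k • Δ) η → ∃ z : ℂ, η = z • ω) ∧
            ∀ P, IsPrimeDivisor y P → (OrdEq P ω (-(k * Δ P)) ↔ P ∉ B)) ∧
        ∀ (m : ℕ) (a : ℤ) (T : (Fin n → Derivation ℂ K K) →
            MultilinearMap K (fun _ : Fin m => Derivation ℂ K K) K),
          1 ≤ m → 1 ≤ m + n * a → Twisted a T → (∃ E, IsFrame E ∧ T E ≠ 0) →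
            (∀ P, IsPrimeDivisor y P → OrbAt (Δ P) P a T) →
          c = 0 ∧ kodairaDim y n Δ = 0 ∧
          (∃ ω, ω ≠ 0 ∧ IsSection y n (d m a) (d m a • Δ) ω) ∧
          (∀ Q : Place ℂ K, (∃ (x : Fin n → K) (E : Fin n → Derivation ℂ K K) (δ : Fin n → ℚ),
            SncAt y Δ Q x E δ) →
            (SemistableOrb (m := fun _ : Unit => m) y Δ (fun _ => a) (fun _ => T) Q ↔
              ∀ P ∈ B, ¬ Through y P Q)) ∧
          ((∀ P, IsPrimeDivisor y P →
              SemistableOrb (m := fun _ : Unit => m) y Δ (fun _ => a) (fun _ => T) P) ↔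
            ∃ (k : ℕ) (ω : (Fin n → Derivation ℂ K K) → K), 1 ≤ k ∧ IsPluri k ω ∧
              ∀ P, IsPrimeDivisor y P → OrdEq P ω (-(k * Δ P))) := by
  classical
  have key : ∀ (m : ℕ) (a : ℤ), ∃ d : ℕ, 1 ≤ d ∧ (1 ≤ m → 1 ≤ (m : ℤ) + n * a →
      ∃ s : Finset (MvPolynomial (Ix (fun _ : Unit => m) n) ℂ),
        (∀ Q ∈ s, TwInv (fun _ : Unit => m) n (fun _ => a) d Q) ∧
        ∀ (L : Type) [Field L] [Algebra ℂ L] [IsAlgClosed L] (t : Fam (fun _ : Unit => m) n L),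
          SemistableFam t → ∃ Q ∈ s, aeval (pt t) Q ≠ 0) := by
    intro m a
    by_cases h : 1 ≤ m ∧ 1 ≤ (m : ℤ) + n * a
    · obtain ⟨d, hd, s, hs⟩ := exists_twinv_fin (m := fun _ : Unit => m) (n := n) (by omega)
        (fun _ => h.1) (a := fun _ => a) (fun _ => h.2)
      exact ⟨d, hd, fun _ _ => ⟨s, hs⟩⟩
    · exact ⟨1, le_rfl, fun h1 h2 => absurd ⟨h1, h2⟩ h⟩
  choose d hd1 hd using key
  refine ⟨d, hd1, ?_⟩
  intro K _ _ N y hy hn Δ α c hΔ hα hc hc0 hst
  have hess := hy.ess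
  obtain ⟨x, E0, hx, hE0⟩ := exists_crd hn
  obtain ⟨w, hwf, hw⟩ := exists_canon hy hn hx hE0
  have hfr : IsFrame E0 := frame_of_dual hx hE0
  obtain ⟨B, hB1, hB2, hB3⟩ := stable_div hy hn hn2 hΔ hα hc hc0 hst hx hE0 hw
  have hord : ∀ (k : ℕ) (ω : (Fin n → Derivation ℂ K K) → K), 1 ≤ k → ω ≠ 0 →
      IsSection y n k (k • Δ) ω → ∀ P, IsPrimeDivisor y P → (OrdEq P ω (-(k * Δ P)) ↔ P ∉ B) := by
    intro k ω hk hω0 hω P hP
    have hωE : ω E0 ≠ 0 := fun h => hω0 (pluri_zero hfr hω.1 h)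
    obtain ⟨x', E', i0, hL⟩ := exists_loc hn (hP.divisorial hy hn)
    rw [ordEq_iff hx hE0 (hw P hP) hL hω.1, ← (hB3 k ω hk hω0 hω).2 P hP, Pi.add_apply]
    constructor
    · rintro ⟨-, h⟩
      rw [h]
      ring
    · intro h
      refine ⟨hωE, ?_⟩
      rw [h]
      ring
  refine ⟨B, hB1, hB2, fun k ω hk hω0 hω => ⟨fun η hη => ?_, hord k ω hk hω0 hω⟩, ?_⟩
  · exact two_sections hy hn hn2 hΔ hα hc hc0 hst hη hω hω0
  intro m a T hm ha hT hTE hTO
  obtain ⟨s, hs, hss⟩ := hd m a hm ha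
  have hT0 : T E0 ≠ 0 := by
    obtain ⟨E, hE, h0⟩ := hTE
    obtain ⟨A, hA, hAE⟩ := frame_change hx hE0 hE
    intro h
    apply h0
    rw [hAE, hT A E0 hA, h, smul_zero]
  obtain ⟨h1, ⟨ω, hω0, hω⟩, h3⟩ := stable_locus hy hn hn2 hΔ hα hc hc0 hst hx hE0 hw hB3
    (fun P hP => (hB2 P hP).1) hm ha (hd1 m a) hs hss hT hTO hT0
  refine ⟨h1, (stable_kod hy hn hn2 hΔ hα hc hc0 hst).2 m a hm ha T hT hTE hTO,
    ⟨ω, hω0, hω⟩, h3, ?_⟩
  constructor
  · intro h
    refine ⟨d m a, ω, hd1 m a, hω.1, fun P hP => (hord _ ω (hd1 m a) hω0 hω P hP).2 fun hPB => ?_⟩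
    exact (h3 P (snc_prime hy hn Δ hP)).1 (h P hP) P hPB fun f hf => localRing_reg hf
  · rintro ⟨k, η, hk, hη, hη2⟩ P hP
    have hηs : IsSection y n k (k • Δ) η := ⟨hη, fun P hP => by
      rw [smul_ap]
      exact (hη2 P hP).1⟩
    have hη0 : η ≠ 0 := by
      intro h
      obtain ⟨-, F, -, h4, -⟩ := hη2 P hP
      rw [h] at h4
      exact h4 rfl
    refine (h3 P (snc_prime hy hn Δ hP)).2 fun P' hP' _ => ?_
    exact (hord k η hk hη0 hηs P' (hB2 P' hP').1).1 (hη2 P' (hB2 P' hP').1) hP'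

end Pool.Agent.Results.MP_5ff3c6_ag.StableUnstableLocus
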